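import Pool.Agent.Y772.ND.Stm
import Pool.Agent.Helper625.Planch

/-!
Project ND, part BESS: the Bessel inequality for a kernel with bounded spectral density.
-/

set_option autoImplicit false

open Complex MeasureTheory
open scoped ComplexConjugate FourierTransform

namespace Pool.Agent.Y550.ND

open Pool.Agent.Y772.ND

/-- The spectral density. -/
noncomputable def rho (g : ℝ → ℝ) (Λ u : ℝ) : ℝ :=
  ∫ x in (-1 / 2 : ℝ)..(1 / 2), g x * ((√Real.pi)⁻¹ * Real.exp (-(u - Λ * x) ^ 2))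

variable {g : ℝ → ℝ} {G Λ : ℝ}

theorem rho_cont (hg : Continuous g) : Continuous (rho g Λ) := by
  unfold rho
  refine intervalIntegral.continuous_parametric_intervalIntegral_of_continuous' ?_ _ _
  exact (hg.comp continuous_snd).mul (continuous_const.mul (Real.continuous_exp.comp (by fun_prop)))

theorem rho_nonneg (hb : ∀ x ∈ Set.Icc (-1 / 2 : ℝ) (1 / 2), 0 ≤ g x ∧ g x ≤ G) (u : ℝ) :
    0 ≤ rho g Λ u := by
  refine intervalIntegral.integral_nonneg (by norm_num) fun x hx => ?_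
  have := (hb x hx).1
  positivity

theorem cont_int (hg : Continuous g) (u : ℝ) :
    Continuous fun x => g x * ((√Real.pi)⁻¹ * Real.exp (-(u - Λ * x) ^ 2)) := by
  fun_prop

theorem gauss_shift (hΛ : 0 < Λ) (u : ℝ) :
    Integrable (fun x : ℝ => Real.exp (-(u - Λ * x) ^ 2)) ∧
      ∫ x : ℝ, Real.exp (-(u - Λ * x) ^ 2) = √Real.pi / Λ := by
  have h0 : Integrable fun y : ℝ => Real.exp (-1 * y ^ 2) := integrable_exp_neg_mul_sq one_pos
  have h1 : Integrable fun y : ℝ => Real.exp (-1 * (y - u) ^ 2) := h0.comp_sub_right u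
  have h2 : Integrable fun x : ℝ => Real.exp (-1 * (Λ * x - u) ^ 2) := h1.comp_mul_left' hΛ.ne'
  have e : (fun x : ℝ => Real.exp (-(u - Λ * x) ^ 2)) =
      fun x : ℝ => Real.exp (-1 * (Λ * x - u) ^ 2) := by
    funext x
    congr 1
    ring
  rw [e]
  refine ⟨h2, ?_⟩
  rw [Measure.integral_comp_mul_left (fun y : ℝ => Real.exp (-1 * (y - u) ^ 2)) Λ,
    integral_sub_right_eq_self (fun y : ℝ => Real.exp (-1 * y ^ 2)) u, integral_gaussian,
    abs_of_pos (inv_pos.2 hΛ), smul_eq_mul, div_one]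
  field_simp

theorem rho_le (hg : Continuous g) (hb : ∀ x ∈ Set.Icc (-1 / 2 : ℝ) (1 / 2), 0 ≤ g x ∧ g x ≤ G)
    (hΛ : 0 < Λ) (u : ℝ) : rho g Λ u ≤ G / Λ := by
  have hG : 0 ≤ G := (hb 0 (by norm_num)).1.trans (hb 0 (by norm_num)).2
  obtain ⟨i1, i2⟩ := gauss_shift hΛ u
  have hle : (-1 / 2 : ℝ) ≤ 1 / 2 := by norm_num
  have hpi : 0 < √Real.pi := Real.sqrt_pos.2 Real.pi_pos
  have h1 : rho g Λ u ≤ ∫ x in (-1 / 2 : ℝ)..(1 / 2),
      G * ((√Real.pi)⁻¹ * Real.exp (-(u - Λ * x) ^ 2)) := by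
    refine intervalIntegral.integral_mono_on hle ((cont_int hg u).intervalIntegrable _ _)
      ((Continuous.intervalIntegrable (by fun_prop)) _ _) fun x hx => ?_
    exact mul_le_mul_of_nonneg_right (hb x hx).2 (by positivity)
  refine h1.trans ?_
  rw [intervalIntegral.integral_of_le hle]
  have h2 : ∫ x in Set.Ioc (-1 / 2 : ℝ) (1 / 2), G * ((√Real.pi)⁻¹ * Real.exp (-(u - Λ * x) ^ 2)) ≤
      ∫ x : ℝ, G * ((√Real.pi)⁻¹ * Real.exp (-(u - Λ * x) ^ 2)) := by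
    refine setIntegral_le_integral ((i1.const_mul _).const_mul _) (ae_of_all _ fun x => ?_)
    simp only [Pi.zero_apply]
    positivity
  refine h2.trans (le_of_eq ?_)
  rw [integral_const_mul, integral_const_mul, i2]
  field_simp

theorem rho_gauss (hg : Continuous g)
    (hb : ∀ x ∈ Set.Icc (-1 / 2 : ℝ) (1 / 2), 0 ≤ g x ∧ g x ≤ G) (u : ℝ) :
    rho g Λ u ≤ G * ((√Real.pi)⁻¹ * (Real.exp (Λ ^ 2 / 4) * Real.exp (-u ^ 2 / 2))) := by
  have hG : 0 ≤ G := (hb 0 (by norm_num)).1.trans (hb 0 (by norm_num)).2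
  have hle : (-1 / 2 : ℝ) ≤ 1 / 2 := by norm_num
  have h1 : rho g Λ u ≤ ∫ _x in (-1 / 2 : ℝ)..(1 / 2),
      G * ((√Real.pi)⁻¹ * (Real.exp (Λ ^ 2 / 4) * Real.exp (-u ^ 2 / 2))) := by
    refine intervalIntegral.integral_mono_on hle ((cont_int hg u).intervalIntegrable _ _)
      ((Continuous.intervalIntegrable (by fun_prop)) _ _) fun x hx => ?_
    refine mul_le_mul (hb x hx).2 (mul_le_mul_of_nonneg_left ?_ (by positivity)) (by positivity) hG
    rw [← Real.exp_add]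
    refine Real.exp_le_exp.2 ?_
    have h3 : x ^ 2 ≤ 1 / 4 := by
      have := abs_le.2 ⟨by linarith [hx.1], hx.2⟩
      have h4 := sq_le_sq' (by linarith [hx.1]) hx.2
      linarith
    have h5 : Λ ^ 2 * x ^ 2 ≤ Λ ^ 2 * (1 / 4) := mul_le_mul_of_nonneg_left h3 (sq_nonneg Λ)
    nlinarith [sq_nonneg (u - 2 * (Λ * x))]
  refine h1.trans (le_of_eq ?_)
  rw [intervalIntegral.integral_const]
  norm_num

theorem exp_bound (y u : ℝ) : Real.exp (-u ^ 2 / 2) * Real.exp (-(u * y)) ≤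
    Real.exp (y ^ 2) * Real.exp (-(1 / 4) * u ^ 2) := by
  rw [← Real.exp_add, ← Real.exp_add]
  refine Real.exp_le_exp.2 ?_
  nlinarith [sq_nonneg (u / 2 + y)]

theorem norm_cexp (u : ℝ) (z : ℂ) : ‖cexp (I * u * z)‖ = Real.exp (-(u * z.im)) := by
  rw [Complex.norm_exp]
  congr 1
  simp [mul_assoc]

theorem kernel_bound (hg : Continuous g)
    (hb : ∀ x ∈ Set.Icc (-1 / 2 : ℝ) (1 / 2), 0 ≤ g x ∧ g x ≤ G) (z : ℂ) (u : ℝ) :
    ‖(rho g Λ u : ℂ) * cexp (I * u * z)‖ ≤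
      (G * ((√Real.pi)⁻¹ * Real.exp (Λ ^ 2 / 4)) * Real.exp (z.im ^ 2)) *
        Real.exp (-(1 / 4) * u ^ 2) := by
  have hG : 0 ≤ G := (hb 0 (by norm_num)).1.trans (hb 0 (by norm_num)).2
  rw [norm_mul, norm_cexp, Complex.norm_real, Real.norm_of_nonneg (rho_nonneg hb u)]
  calc rho g Λ u * Real.exp (-(u * z.im)) ≤
      G * ((√Real.pi)⁻¹ * (Real.exp (Λ ^ 2 / 4) * Real.exp (-u ^ 2 / 2))) *
        Real.exp (-(u * z.im)) :=
        mul_le_mul_of_nonneg_right (rho_gauss hg hb u) (Real.exp_nonneg _)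
    _ = (G * ((√Real.pi)⁻¹ * Real.exp (Λ ^ 2 / 4))) *
        (Real.exp (-u ^ 2 / 2) * Real.exp (-(u * z.im))) := by ring
    _ ≤ (G * ((√Real.pi)⁻¹ * Real.exp (Λ ^ 2 / 4))) *
        (Real.exp (z.im ^ 2) * Real.exp (-(1 / 4) * u ^ 2)) :=
        mul_le_mul_of_nonneg_left (exp_bound _ _) (by positivity)
    _ = _ := by ring

theorem gauss4 : Integrable fun u : ℝ => Real.exp (-(1 / 4) * u ^ 2) :=
  integrable_exp_neg_mul_sq (by norm_num)

theorem kernel_cont (hg : Continuous g) (z : ℂ) :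
    Continuous fun u : ℝ => (rho g Λ u : ℂ) * cexp (I * u * z) :=
  (Complex.continuous_ofReal.comp (rho_cont hg)).mul (by fun_prop)

theorem kernel_int (hg : Continuous g)
    (hb : ∀ x ∈ Set.Icc (-1 / 2 : ℝ) (1 / 2), 0 ≤ g x ∧ g x ≤ G) (z : ℂ) :
    Integrable fun u : ℝ => (rho g Λ u : ℂ) * cexp (I * u * z) :=
  (gauss4.const_mul _).mono' (kernel_cont hg z).aestronglyMeasurable
    (ae_of_all _ (kernel_bound hg hb z))

theorem sqrt_pi_cpow : ((Real.pi : ℂ) / -(-1 : ℂ)) ^ (1 / 2 : ℂ) = ((√Real.pi : ℝ) : ℂ) := by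
  rw [neg_neg, div_one, Real.sqrt_eq_rpow, Complex.ofReal_cpow Real.pi_pos.le]
  norm_num

/-- The Fourier representation of the kernel. -/
theorem phi_eq (hg : Continuous g)
    (hb : ∀ x ∈ Set.Icc (-1 / 2 : ℝ) (1 / 2), 0 ≤ g x ∧ g x ≤ G) (z : ℂ) :
    ∫ u : ℝ, (rho g Λ u : ℂ) * cexp (I * u * z) =
      (∫ x in (-1 / 2 : ℝ)..(1 / 2), (g x : ℂ) * cexp (I * (Λ * z) * x)) * cexp (-z ^ 2 / 4) := by
  have hG : 0 ≤ G := (hb 0 (by norm_num)).1.trans (hb 0 (by norm_num)).2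
  have hle : (-1 / 2 : ℝ) ≤ 1 / 2 := by norm_num
  have hpi : 0 < √Real.pi := Real.sqrt_pos.2 Real.pi_pos
  set K : ℝ → ℝ → ℂ := fun x u =>
    ((g x * ((√Real.pi)⁻¹ * Real.exp (-(u - Λ * x) ^ 2)) : ℝ) : ℂ) * cexp (I * u * z) with hK
  have h1 : ∀ u : ℝ, (rho g Λ u : ℂ) * cexp (I * u * z) =
      ∫ x in Set.Ioc (-1 / 2 : ℝ) (1 / 2), K x u := by
    intro u
    rw [rho, ← intervalIntegral.integral_ofReal, ← intervalIntegral.integral_mul_const,
      intervalIntegral.integral_of_le hle]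
  simp_rw [h1]
  have hKc : Continuous (Function.uncurry K) := by
    have : Function.uncurry K = fun p : ℝ × ℝ =>
      ((g p.1 * ((√Real.pi)⁻¹ * Real.exp (-(p.2 - Λ * p.1) ^ 2)) : ℝ) : ℂ) *
        cexp (I * p.2 * z) := rfl
    rw [this]
    refine (Complex.continuous_ofReal.comp ?_).mul (by fun_prop)
    exact (hg.comp continuous_fst).mul (by fun_prop)
  have hKi : Integrable (Function.uncurry K)
      ((volume.restrict (Set.Ioc (-1 / 2 : ℝ) (1 / 2))).prod volume) := by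
    have hc : Integrable (fun _ : ℝ => G * ((√Real.pi)⁻¹ * Real.exp (Λ ^ 2 / 4)) *
        Real.exp (z.im ^ 2)) (volume.restrict (Set.Ioc (-1 / 2 : ℝ) (1 / 2))) :=
      integrable_const _
    refine (hc.mul_prod gauss4).mono' hKc.aestronglyMeasurable ?_
    have hm : (volume.restrict (Set.Ioc (-1 / 2 : ℝ) (1 / 2))).prod (volume : Measure ℝ) =
        ((volume : Measure ℝ).prod (volume : Measure ℝ)).restrict
          (Set.Ioc (-1 / 2 : ℝ) (1 / 2) ×ˢ Set.univ) := by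
      rw [← Measure.prod_restrict, Measure.restrict_univ]
    rw [hm]
    refine (ae_restrict_iff' (measurableSet_Ioc.prod MeasurableSet.univ)).2 (ae_of_all _ ?_)
    rintro ⟨x, u⟩ ⟨hx, _⟩
    have hx' : x ∈ Set.Icc (-1 / 2 : ℝ) (1 / 2) := Set.Ioc_subset_Icc_self hx
    simp only [Function.uncurry_apply_pair, hK]
    have hgx := hb x hx'
    have hp : 0 ≤ g x * ((√Real.pi)⁻¹ * Real.exp (-(u - Λ * x) ^ 2)) := by
      have := hgx.1
      positivity
    rw [norm_mul, norm_cexp, Complex.norm_real, Real.norm_of_nonneg hp]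
    have h3 : x ^ 2 ≤ 1 / 4 := by
      have h4 := sq_le_sq' (by linarith [hx'.1]) hx'.2
      linarith
    have h5 : Λ ^ 2 * x ^ 2 ≤ Λ ^ 2 * (1 / 4) := mul_le_mul_of_nonneg_left h3 (sq_nonneg Λ)
    have h6 : Real.exp (-(u - Λ * x) ^ 2) ≤ Real.exp (Λ ^ 2 / 4) * Real.exp (-u ^ 2 / 2) := by
      rw [← Real.exp_add]
      refine Real.exp_le_exp.2 ?_
      nlinarith [sq_nonneg (u - 2 * (Λ * x))]
    calc g x * ((√Real.pi)⁻¹ * Real.exp (-(u - Λ * x) ^ 2)) * Real.exp (-(u * z.im)) ≤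
        G * ((√Real.pi)⁻¹ * (Real.exp (Λ ^ 2 / 4) * Real.exp (-u ^ 2 / 2))) *
          Real.exp (-(u * z.im)) := by
          refine mul_le_mul_of_nonneg_right ?_ (Real.exp_nonneg _)
          exact mul_le_mul hgx.2 (mul_le_mul_of_nonneg_left h6 (by positivity)) (by positivity) hG
      _ = (G * ((√Real.pi)⁻¹ * Real.exp (Λ ^ 2 / 4))) *
          (Real.exp (-u ^ 2 / 2) * Real.exp (-(u * z.im))) := by ring
      _ ≤ (G * ((√Real.pi)⁻¹ * Real.exp (Λ ^ 2 / 4))) *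
          (Real.exp (z.im ^ 2) * Real.exp (-(1 / 4) * u ^ 2)) :=
          mul_le_mul_of_nonneg_left (exp_bound _ _) (by positivity)
      _ = _ := by ring
  rw [← integral_integral_swap hKi]
  have h2 : ∀ x : ℝ, ∫ u : ℝ, K x u = (g x : ℂ) * cexp (I * (Λ * z) * x) * cexp (-z ^ 2 / 4) := by
    intro x
    have e1 : ∀ u : ℝ, K x u = ((g x : ℂ) * ((√Real.pi : ℝ) : ℂ)⁻¹) *
        cexp ((-1 : ℂ) * (u : ℂ) ^ 2 + (2 * Λ * x + I * z) * u + (-(Λ * x) ^ 2)) := by
      intro u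
      simp only [hK]
      push_cast
      have e2 : (-1 : ℂ) * (u : ℂ) ^ 2 + (2 * Λ * x + I * z) * u + (-(Λ * x) ^ 2) =
          -((u : ℂ) - Λ * x) ^ 2 + I * u * z := by ring
      rw [e2, Complex.exp_add]
      ring
    simp_rw [e1]
    rw [integral_const_mul, integral_cexp_quadratic (by norm_num), sqrt_pi_cpow]
    have hne : ((√Real.pi : ℝ) : ℂ) ≠ 0 := by exact_mod_cast hpi.ne'
    have e3 : (-((Λ : ℂ) * x) ^ 2) - (2 * Λ * x + I * z) ^ 2 / (4 * (-1 : ℂ)) =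
        I * (Λ * z) * x + -z ^ 2 / 4 := by
      have hI : I ^ 2 = -1 := I_sq
      linear_combination (z ^ 2 / 4) * hI
    rw [e3, Complex.exp_add]
    field_simp
  simp_rw [h2]
  rw [intervalIntegral.integral_of_le hle, integral_mul_const]

/-- The function of `u` whose Fourier transform is the sum. -/
noncomputable def psi (g : ℝ → ℝ) (Λ : ℝ) (Z : Finset ℂ) (c : ℂ → ℂ) (u : ℝ) : ℂ :=
  ∑ z ∈ Z, c z * ((rho g Λ u : ℂ) * cexp (I * u * (-z)))

theorem t_BESS : P_BESS := by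
  intro g hg _ G hb Λ hΛ φ hφ Z c
  have hφ' : ∀ z, φ z = ∫ u : ℝ, (rho g Λ u : ℂ) * cexp (I * u * z) := fun z => by
    rw [hφ, phi_eq hg hb]
  have hG : 0 ≤ G := (hb 0 (by norm_num)).1.trans (hb 0 (by norm_num)).2
  set F : ℝ → ℂ := fun t => ∑ z ∈ Z, c z * φ (t - z) with hF
  set ψ : ℝ → ℂ := psi g Λ Z c with hψ
  have hψc : Continuous ψ :=
    continuous_finsetSum _ fun z _ => continuous_const.mul (kernel_cont hg _)
  have hψi : Integrable ψ :=
    integrable_finsetSum _ fun z _ => (kernel_int hg hb _).const_mul _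
  -- the bound of psi
  set B : ℝ := ∑ z ∈ Z, ‖c z‖ * (G * ((√Real.pi)⁻¹ * Real.exp (Λ ^ 2 / 4)) *
    Real.exp ((-z).im ^ 2)) with hB
  have hψb : ∀ u, ‖ψ u‖ ≤ B * Real.exp (-(1 / 4) * u ^ 2) := by
    intro u
    refine (norm_sum_le _ _).trans ?_
    rw [hB, Finset.sum_mul]
    refine Finset.sum_le_sum fun z _ => ?_
    rw [norm_mul]
    exact (mul_le_mul_of_nonneg_left (kernel_bound hg hb (-z) u) (norm_nonneg (c z))).trans
      (le_of_eq (mul_assoc _ _ _).symm)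
  have hB0 : 0 ≤ B := Finset.sum_nonneg fun z _ => by positivity
  have hψ2i : Integrable fun u => ‖ψ u‖ ^ 2 := by
    refine (gauss4.const_mul (B ^ 2)).mono' (hψc.norm.pow 2).aestronglyMeasurable
      (ae_of_all _ fun u => ?_)
    rw [Real.norm_of_nonneg (by positivity)]
    have h1 : Real.exp (-(1 / 4) * u ^ 2) ≤ 1 := Real.exp_le_one_iff.2 (by nlinarith [sq_nonneg u])
    calc ‖ψ u‖ ^ 2 ≤ (B * Real.exp (-(1 / 4) * u ^ 2)) ^ 2 :=
          pow_le_pow_left₀ (norm_nonneg _) (hψb u) 2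
      _ = B ^ 2 * (Real.exp (-(1 / 4) * u ^ 2) * Real.exp (-(1 / 4) * u ^ 2)) := by ring
      _ ≤ B ^ 2 * (Real.exp (-(1 / 4) * u ^ 2) * 1) := by gcongr
      _ = _ := by ring
  have hψ2 : MemLp ψ 2 := (memLp_two_iff_integrable_sq_norm hψc.aestronglyMeasurable).2 hψ2i
  obtain ⟨hm, hpl⟩ := Pool.Agent.Helper625.Planch.plancherel ψ hψi hψ2
  -- the Fourier transform
  have hFψ : ∀ t : ℝ, F t = 𝓕 ψ (-(2 * Real.pi)⁻¹ * t) := by
    intro t
    rw [Real.fourier_real_eq_integral_exp_smul]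
    have e1 : ∀ u : ℝ, cexp (↑(-2 * Real.pi * u * (-(2 * Real.pi)⁻¹ * t)) * I) • ψ u =
        ∑ z ∈ Z, c z * ((rho g Λ u : ℂ) * cexp (I * u * (t - z))) := by
      intro u
      have hpi : (2 * Real.pi) ≠ 0 := by positivity
      have e2 : -2 * Real.pi * u * (-(2 * Real.pi)⁻¹ * t) = u * t := by
        field_simp
      rw [e2, hψ, psi, smul_eq_mul, Finset.mul_sum]
      refine Finset.sum_congr rfl fun z _ => ?_
      have e3 : I * u * (t - z) = ((u * t : ℝ) : ℂ) * I + I * u * (-z) := by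
        push_cast
        ring
      rw [e3, Complex.exp_add]
      ring
    simp_rw [e1]
    rw [integral_finsetSum _ fun z _ => (kernel_int hg hb _).const_mul _]
    refine Finset.sum_congr rfl fun z _ => ?_
    rw [integral_const_mul, hφ']
  have hne : -(2 * Real.pi)⁻¹ ≠ 0 := by
    have := Real.pi_pos
    exact neg_ne_zero.2 (by positivity)
  have hFi : Integrable fun t => ‖F t‖ ^ 2 := by
    have h1 : Integrable fun ξ => ‖𝓕 ψ ξ‖ ^ 2 :=
      (memLp_two_iff_integrable_sq_norm hm.1).1 hm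
    have h2 := h1.comp_mul_left' hne
    refine h2.congr (ae_of_all _ fun t => ?_)
    simp only [hFψ]
  refine ⟨hFi, ?_⟩
  have hFn : ∫ t, ‖F t‖ ^ 2 = 2 * Real.pi * ∫ u, ‖ψ u‖ ^ 2 := by
    simp_rw [hFψ]
    rw [Measure.integral_comp_mul_left (fun ξ => ‖𝓕 ψ ξ‖ ^ 2), hpl, smul_eq_mul]
    congr 1
    rw [inv_neg, inv_inv, abs_neg, abs_of_pos (by positivity)]
  rw [hFn]
  -- the quadratic form
  set h : ℝ → ℂ := fun u => ∑ z ∈ Z, c z * cexp (I * u * (-z)) with hh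
  have hψh : ∀ u, ψ u = (rho g Λ u : ℂ) * h u := by
    intro u
    rw [hψ, psi, hh, Finset.mul_sum]
    refine Finset.sum_congr rfl fun z _ => ?_
    ring
  have hq : ∀ u : ℝ, ((rho g Λ u * ‖h u‖ ^ 2 : ℝ) : ℂ) = ∑ z ∈ Z, ∑ w ∈ Z,
      (c z * conj (c w)) * ((rho g Λ u : ℂ) * cexp (I * u * (conj w - z))) := by
    intro u
    have e1 : ((‖h u‖ ^ 2 : ℝ) : ℂ) = h u * conj (h u) := by
      rw [Complex.mul_conj, Complex.normSq_eq_norm_sq]
    rw [Complex.ofReal_mul, e1, hh]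
    simp only [map_sum, map_mul]
    rw [Finset.sum_mul_sum, Finset.mul_sum]
    refine Finset.sum_congr rfl fun z _ => ?_
    rw [Finset.mul_sum]
    refine Finset.sum_congr rfl fun w _ => ?_
    have e2 : conj (cexp (I * u * (-w))) = cexp (I * u * conj w) := by
      rw [← Complex.exp_conj]
      congr 1
      simp only [map_mul, map_neg, Complex.conj_I, Complex.conj_ofReal]
      ring
    have e3 : I * u * (conj w - z) = I * u * (-z) + I * u * conj w := by ring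
    rw [e2, e3, Complex.exp_add]
    ring
  have hqi : ∀ z ∈ Z, ∀ w ∈ Z, Integrable fun u : ℝ =>
      (c z * conj (c w)) * ((rho g Λ u : ℂ) * cexp (I * u * (conj w - z))) :=
    fun z _ w _ => (kernel_int hg hb _).const_mul _
  have hqi2 : Integrable fun u : ℝ => ((rho g Λ u * ‖h u‖ ^ 2 : ℝ) : ℂ) := by
    simp_rw [hq]
    exact integrable_finsetSum _ fun z hz => integrable_finsetSum _ fun w hw => hqi z hz w hw
  have hqi3 : Integrable fun u : ℝ => rho g Λ u * ‖h u‖ ^ 2 := by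
    exact hqi2.re.congr (ae_of_all _ fun u => Complex.ofReal_re _)
  have hquad : ((∫ u, rho g Λ u * ‖h u‖ ^ 2 : ℝ) : ℂ) =
      ∑ z ∈ Z, ∑ w ∈ Z, c z * conj (c w) * φ (conj w - z) := by
    rw [← integral_complex_ofReal]
    simp_rw [hq]
    rw [integral_finsetSum _ fun z hz => integrable_finsetSum _ fun w hw => hqi z hz w hw]
    refine Finset.sum_congr rfl fun z hz => ?_
    rw [integral_finsetSum _ fun w hw => hqi z hz w hw]
    refine Finset.sum_congr rfl fun w _ => ?_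
    rw [integral_const_mul, hφ']
  rw [← hquad, Complex.ofReal_re]
  have hmono : ∫ u, ‖ψ u‖ ^ 2 ≤ ∫ u, G / Λ * (rho g Λ u * ‖h u‖ ^ 2) := by
    refine integral_mono hψ2i (hqi3.const_mul _) fun u => ?_
    simp only
    rw [hψh, norm_mul, Complex.norm_real, Real.norm_of_nonneg (rho_nonneg hb u)]
    have h1 := rho_le hg hb hΛ u
    have h2 := rho_nonneg (Λ := Λ) hb u
    calc (rho g Λ u * ‖h u‖) ^ 2 = rho g Λ u * (rho g Λ u * ‖h u‖ ^ 2) := by ring
      _ ≤ G / Λ * (rho g Λ u * ‖h u‖ ^ 2) := by gcongr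
  rw [integral_const_mul] at hmono
  calc 2 * Real.pi * ∫ u, ‖ψ u‖ ^ 2 ≤
      2 * Real.pi * (G / Λ * ∫ u, rho g Λ u * ‖h u‖ ^ 2) := by
        have := Real.pi_pos
        gcongr
    _ = _ := by ring

end Pool.Agent.Y550.ND
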